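import Pool.Agent.KK.StmtsE

/-!
# E14: the exact count
-/

set_option autoImplicit false

open Finset

namespace Pool.Agent.KK.E.H77

/-- the density as a sum of indicators -/
theorem dens_eq {V ι : Type} [Fintype V] [DecidableEq V] [Fintype ι] [DecidableEq ι]
    (c : ι → Finset V) (P : (ι → V) → Prop) [DecidablePred P] :
    dens c P = (∑ f ∈ Fintype.piFinset c, if P f then (1 : ℝ) else 0) /
      ∏ i, ((c i).card : ℝ) := by
  unfold dens
  have h : {f : ι → V | (∀ i, f i ∈ c i) ∧ P f} =
      (((Fintype.piFinset c).filter P : Finset (ι → V)) : Set (ι → V)) := by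
    ext f
    simp
  rw [h, Set.ncard_coe_finset, Finset.sum_boole]

theorem D_zero {V : Type} [Fintype V] [DecidableEq V] (H : Finset (Finset V)) (X M : Finset V)
    (hM : M ∈ H) : D H X M 0 0 = 1 := by
  classical
  unfold D
  rw [dens_eq]
  have h : ∀ f : Fin 0 ⊕ Fin 0 → V, (if M ∪ Finset.univ.image f ∈ H then (1 : ℝ) else 0) = 1 := by
    intro f
    have : (Finset.univ.image f) = ∅ := by
      rw [Finset.image_eq_empty]
      exact Finset.univ_eq_empty
    rw [this, Finset.union_empty, if_pos hM]
  rw [Finset.sum_congr rfl fun f _ => h f]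
  simp

section

variable {V : Type} [Fintype V] [DecidableEq V] {H : Finset (Finset V)} {X F' : Finset V}
  {p q : ℕ} {η : ℕ → ℝ}

/-- the image of a generic tuple is not an edge -/
theorem im_notMem (hη : η (p + q + 2) < 1) {f : Fin (p + 1) ⊕ Fin (q + 1) → V}
    (hf : ∀ i, f i ∈ lets X (p + 1) (q + 1) i) (hg : Gen H X p q η F' ∅ f) :
    Finset.univ.image f ∉ H := by
  intro hH
  obtain ⟨hi, -, hn⟩ := hg
  apply hn (Finset.univ.image f) (by simp)
  have h1 : (Finset.univ.image f) ∩ X = Finset.univ.image fun i : Fin (p + 1) => f (Sum.inl i) := by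
    ext v
    simp only [Finset.mem_inter, Finset.mem_image, Finset.mem_univ, true_and]
    constructor
    · rintro ⟨⟨i, rfl⟩, hv⟩
      rcases i with i | i
      · exact ⟨i, rfl⟩
      · have := hf (Sum.inr i)
        simp only [lets, Sum.elim_inr, Finset.mem_compl] at this
        exact absurd hv this
    · rintro ⟨i, rfl⟩
      exact ⟨⟨_, rfl⟩, hf (Sum.inl i)⟩
  have h2 : (Finset.univ.image f) \ X = Finset.univ.image fun i : Fin (q + 1) => f (Sum.inr i) := by
    ext v
    simp only [Finset.mem_sdiff, Finset.mem_image, Finset.mem_univ, true_and]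
    constructor
    · rintro ⟨⟨i, rfl⟩, hv⟩
      rcases i with i | i
      · exact absurd (hf (Sum.inl i)) hv
      · exact ⟨i, rfl⟩
    · rintro ⟨i, rfl⟩
      have := hf (Sum.inr i)
      simp only [lets, Sum.elim_inr, Finset.mem_compl] at this
      exact ⟨⟨_, rfl⟩, this⟩
  have c1 : ((Finset.univ.image f) ∩ X).card = p + 1 := by
    have hj : Function.Injective fun i : Fin (p + 1) => f (Sum.inl i) := hi.comp Sum.inl_injective
    rw [h1, Finset.card_image_of_injective _ hj, Finset.card_univ, Fintype.card_fin]
  have c2 : ((Finset.univ.image f) \ X).card = q + 1 := by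
    have hj : Function.Injective fun i : Fin (q + 1) => f (Sum.inr i) := hi.comp Sum.inr_injective
    rw [h2, Finset.card_image_of_injective _ hj, Finset.card_univ, Fintype.card_fin]
  have c3 : (Finset.univ.image f).card = p + q + 2 := by
    rw [Finset.card_image_of_injective _ hi, Finset.card_univ, Fintype.card_sum, Fintype.card_fin,
      Fintype.card_fin]
    ring
  refine ⟨c1.le, c2.le, ?_⟩
  rw [c1, c2, c3, Nat.sub_self, Nat.sub_self, D_zero H X _ hH]
  exact hη

/-- the neighbourhood of the image without one vertex has no element in the image -/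
theorem nb_sub (hη : η (p + q + 2) < 1) {f : Fin (p + 1) ⊕ Fin (q + 1) → V}
    (hf : ∀ i, f i ∈ lets X (p + 1) (q + 1) i) (hg : Gen H X p q η F' ∅ f)
    (j : Fin (p + 1) ⊕ Fin (q + 1)) :
    nb H ((Finset.univ.filter fun i => i ≠ j).image f) ⊆
      Finset.univ.filter fun v => v ∉ Finset.univ.image f ∧
        insert v ((Finset.univ.filter fun i => i ≠ j).image f) ∈ H := by
  intro v hv
  unfold nb at hv
  rw [Finset.mem_filter] at hv
  obtain ⟨-, hv1, hv2⟩ := hv
  rw [Finset.mem_filter]
  refine ⟨Finset.mem_univ _, ?_, hv2⟩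
  intro hv3
  rw [Finset.mem_image] at hv3
  obtain ⟨i, -, rfl⟩ := hv3
  by_cases hij : i = j
  · subst hij
    apply im_notMem hη hf hg
    have : insert (f i) ((Finset.univ.filter fun l => l ≠ i).image f) = Finset.univ.image f := by
      rw [← Finset.image_insert]
      congr 1
      ext l
      simp only [Finset.mem_insert, Finset.mem_filter, Finset.mem_univ, true_and, iff_true]
      exact em _
    rwa [this] at hv2
  · apply hv1
    rw [Finset.mem_image]
    exact ⟨i, by simp [hij], rfl⟩

theorem count_f (hD : Dirac H (p + q + 2)) (hη : η (p + q + 2) < 1)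
    {f : Fin (p + 1) ⊕ Fin (q + 1) → V}
    (hf : ∀ i, f i ∈ lets X (p + 1) (q + 1) i) (hg : Gen H X p q η F' ∅ f)
    (j : Fin (p + 1) ⊕ Fin (q + 1)) :
    Fintype.card V ≤ 2 * (Finset.univ.filter fun v => v ∉ Finset.univ.image f ∧
        insert v ((Finset.univ.filter fun i => i ≠ j).image f) ∈ H).card := by
  have h1 : ((Finset.univ.filter fun i => i ≠ j).image f).card = p + q + 2 - 1 := by
    rw [Finset.card_image_of_injective _ hg.1, Finset.filter_ne', Finset.card_erase_of_mem
      (Finset.mem_univ _), Finset.card_univ, Fintype.card_sum, Fintype.card_fin, Fintype.card_fin]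
    omega
  have h2 := hD _ h1
  have h3 := Finset.card_le_card (nb_sub hη hf hg j)
  omega

end

theorem e_cnt : StmtE14 := by
  classical
  intro V _ _ H X F' p q η _ hD hX hXc hη
  have hcn : ∀ i, (lets X (p + 1) (q + 1) i).Nonempty := by
    rintro (i | i)
    · exact hX
    · exact hXc
  have hPpos : 0 < ∏ i, ((lets X (p + 1) (q + 1) i).card : ℝ) :=
    Finset.prod_pos fun i _ => by exact_mod_cast (hcn i).card_pos
  simp only [dens_eq]
  rw [← mul_div_assoc]
  simp only [← add_div, ← sub_div]
  rw [← Finset.sum_div]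
  apply div_le_div_of_nonneg_right _ hPpos.le
  simp only [← Finset.sum_add_distrib, ← Finset.sum_sub_distrib]
  rw [Finset.sum_comm, Finset.mul_sum]
  apply Finset.sum_le_sum
  intro f hf
  rw [Fintype.mem_piFinset] at hf
  by_cases hg : Gen H X p q η F' ∅ f
  · simp only [hg, true_and, if_true, mul_one]
    rw [Finset.sum_sub_distrib, Finset.sum_add_distrib, Finset.sum_boole, Finset.sum_boole,
      Finset.sum_boole]
    have h1 := count_f hD hη hf hg (Sum.inr 0)
    have h2 := count_f hD hη hf hg (Sum.inl 0)
    have h3 : (Finset.univ.filter fun v => v ∉ Finset.univ.image f).card + (p + q + 2) =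
        Fintype.card V := by
      have h4 : (Finset.univ.filter fun v => v ∉ Finset.univ.image f) =
          (Finset.univ.image f)ᶜ := by
        ext v
        simp
      rw [h4, Finset.card_compl, Finset.card_image_of_injective _ hg.1, Finset.card_univ,
        Fintype.card_sum, Fintype.card_fin, Fintype.card_fin]
      have h5 := Fintype.card_le_of_injective f hg.1
      rw [Fintype.card_sum, Fintype.card_fin, Fintype.card_fin] at h5
      omega
    have h6 : p + q + 2 + (Finset.univ.filter fun v => v ∉ Finset.univ.image f).card ≤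
        (Finset.univ.filter fun v => v ∉ Finset.univ.image f ∧ insert v (Rx f) ∈ H).card +
        (Finset.univ.filter fun v => v ∉ Finset.univ.image f ∧ insert v (Ry f) ∈ H).card := by
      unfold Rx Ry
      omega
    have h7 : ((p + q + 2 + (Finset.univ.filter fun v => v ∉ Finset.univ.image f).card : ℕ) : ℝ) ≤
        (((Finset.univ.filter fun v => v ∉ Finset.univ.image f ∧ insert v (Rx f) ∈ H).card +
        (Finset.univ.filter fun v => v ∉ Finset.univ.image f ∧ insert v (Ry f) ∈ H).card : ℕ) : ℝ) := by
      exact_mod_cast h6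
    push_cast at h7 ⊢
    linarith
  · simp [hg]

end Pool.Agent.KK.E.H77
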