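import Pool.Agent.Helper77_KK.E_CNT

/-!
# E24: choice of the partition
-/

set_option autoImplicit false

open Finset

namespace Pool.Agent.KK.E.H77

section Weights

variable {V ι : Type} [Fintype V] [DecidableEq V] [Fintype ι] [DecidableEq ι]

/-- the uniform weights of a set -/
noncomputable def wt (A : Finset V) (v : V) : ℝ := if v ∈ A then 1 / (A.card : ℝ) else 0

omit [Fintype V] in
theorem wt_nonneg (A : Finset V) (v : V) : 0 ≤ wt A v := by
  unfold wt
  split_ifs <;> positivity

theorem sum_wt {A : Finset V} (hA : A.Nonempty) : ∑ v, wt A v = 1 := by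
  unfold wt
  rw [Finset.sum_ite_mem, Finset.univ_inter, Finset.sum_const, nsmul_eq_mul]
  have : (A.card : ℝ) ≠ 0 := by exact_mod_cast hA.card_pos.ne'
  field_simp

theorem dens_wt (c : ι → Finset V) (P : (ι → V) → Prop) [DecidablePred P] :
    dens c P = ∑ f : ι → V, (if P f then (1 : ℝ) else 0) * ∏ i, wt (c i) (f i) := by
  rw [dens_eq, Finset.sum_div, ← Finset.sum_subset (Finset.subset_univ (Fintype.piFinset c))]
  · apply Finset.sum_congr rfl
    intro f hf
    rw [Fintype.mem_piFinset] at hf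
    have : ∏ i, wt (c i) (f i) = 1 / ∏ i, ((c i).card : ℝ) := by
      rw [one_div, ← Finset.prod_inv_distrib]
      apply Finset.prod_congr rfl
      intro i _
      unfold wt
      rw [if_pos (hf i), one_div]
    rw [this, mul_one_div]
  · intro f _ hf
    rw [Fintype.mem_piFinset] at hf
    push Not at hf
    obtain ⟨i, hi⟩ := hf
    have : ∏ i, wt (c i) (f i) = 0 := by
      apply Finset.prod_eq_zero (Finset.mem_univ i)
      unfold wt
      rw [if_neg hi]
    rw [this, mul_zero]

omit [DecidableEq V] in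
/-- total variation of product measures -/
theorem tv (u w : ι → V → ℝ) (hu : ∀ i v, 0 ≤ u i v) (hw : ∀ i v, 0 ≤ w i v)
    (hu1 : ∀ i, ∑ v, u i v = 1) (hw1 : ∀ i, ∑ v, w i v = 1) (s : Finset ι) :
    ∑ f : ι → V, |∏ i, u i (f i) - ∏ i, (if i ∈ s then w i (f i) else u i (f i))| ≤
      ∑ i ∈ s, ∑ v, |u i v - w i v| := by
  induction s using Finset.induction_on with
  | empty => simp
  | insert j s hj ih =>
    rw [Finset.sum_insert hj]
    set G : ι → V → ℝ := fun i v => if i = j then |u j v - w j v| else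
      if i ∈ s then w i v else u i v with hG
    have key : ∀ f : ι → V, |∏ i, (if i ∈ s then w i (f i) else u i (f i)) -
        ∏ i, (if i ∈ insert j s then w i (f i) else u i (f i))| = ∏ i, G i (f i) := by
      intro f
      rw [← Finset.mul_prod_erase univ (fun i => if i ∈ s then w i (f i) else u i (f i))
          (Finset.mem_univ j),
        ← Finset.mul_prod_erase univ (fun i => if i ∈ insert j s then w i (f i) else u i (f i))
          (Finset.mem_univ j),
        ← Finset.mul_prod_erase univ (fun i => G i (f i)) (Finset.mem_univ j)]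
      have e1 : ∏ i ∈ univ.erase j, (if i ∈ insert j s then w i (f i) else u i (f i)) =
          ∏ i ∈ univ.erase j, (if i ∈ s then w i (f i) else u i (f i)) := by
        apply Finset.prod_congr rfl
        intro i hi
        have hij := Finset.ne_of_mem_erase hi
        simp [hij]
      have e2 : ∏ i ∈ univ.erase j, G i (f i) =
          ∏ i ∈ univ.erase j, (if i ∈ s then w i (f i) else u i (f i)) := by
        apply Finset.prod_congr rfl
        intro i hi
        have hij := Finset.ne_of_mem_erase hi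
        simp [hG, hij]
      have e3 : 0 ≤ ∏ i ∈ univ.erase j, (if i ∈ s then w i (f i) else u i (f i)) := by
        apply Finset.prod_nonneg
        intro i _
        split_ifs
        · exact hw _ _
        · exact hu _ _
      rw [e1, e2, if_neg hj, if_pos (Finset.mem_insert_self j s), ← sub_mul, abs_mul,
        abs_of_nonneg e3]
      simp [hG]
    have sumG : ∑ f : ι → V, ∏ i, G i (f i) = ∑ v, |u j v - w j v| := by
      have h1 := Finset.prod_univ_sum (fun _ : ι => (Finset.univ : Finset V)) G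
      rw [Fintype.piFinset_univ] at h1
      rw [← h1, Finset.prod_eq_single j]
      · simp [hG]
      · intro i _ hij
        simp only [hG, if_neg hij]
        split_ifs
        · exact hw1 i
        · exact hu1 i
      · intro h
        exact absurd (Finset.mem_univ j) h
    calc ∑ f : ι → V, |∏ i, u i (f i) - ∏ i, (if i ∈ insert j s then w i (f i) else u i (f i))|
        ≤ ∑ f : ι → V, (∏ i, G i (f i) + |∏ i, u i (f i) -
            ∏ i, (if i ∈ s then w i (f i) else u i (f i))|) := by
          apply Finset.sum_le_sum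
          intro f _
          rw [← key f, add_comm]
          exact abs_sub_le _ _ _
      _ ≤ _ := by
          rw [Finset.sum_add_distrib, sumG]
          gcongr

/-- change of the box -/
theorem change (c c' : ι → Finset V) (τ : ℝ) (hc : ∀ i, (c i).Nonempty)
    (hc' : ∀ i, (c' i).Nonempty) (hτ : ∀ i, ∑ v, |wt (c i) v - wt (c' i) v| ≤ τ)
    (P : (ι → V) → Prop) : |dens c P - dens c' P| ≤ (Fintype.card ι : ℝ) * τ := by
  classical
  rw [dens_wt, dens_wt, ← Finset.sum_sub_distrib]
  calc |∑ f : ι → V, ((if P f then (1 : ℝ) else 0) * ∏ i, wt (c i) (f i) -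
        (if P f then (1 : ℝ) else 0) * ∏ i, wt (c' i) (f i))|
      ≤ ∑ f : ι → V, |(if P f then (1 : ℝ) else 0) * ∏ i, wt (c i) (f i) -
        (if P f then (1 : ℝ) else 0) * ∏ i, wt (c' i) (f i)| := Finset.abs_sum_le_sum_abs _ _
    _ ≤ ∑ f : ι → V, |∏ i, wt (c i) (f i) - ∏ i, (if i ∈ (univ : Finset ι) then wt (c' i) (f i)
          else wt (c i) (f i))| := by
        apply Finset.sum_le_sum
        intro f _
        simp only [Finset.mem_univ, if_true]
        split_ifs
        · rw [one_mul, one_mul]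
        · rw [zero_mul, zero_mul, sub_zero, abs_zero]
          exact abs_nonneg _
    _ ≤ ∑ i ∈ (univ : Finset ι), ∑ v, |wt (c i) v - wt (c' i) v| :=
        tv (fun i => wt (c i)) (fun i => wt (c' i)) (fun i => wt_nonneg _) (fun i => wt_nonneg _)
          (fun i => sum_wt (hc i)) (fun i => sum_wt (hc' i)) univ
    _ ≤ ∑ i ∈ (univ : Finset ι), τ := Finset.sum_le_sum fun i _ => hτ i
    _ = _ := by rw [Finset.sum_const, Finset.card_univ, nsmul_eq_mul]

omit [Fintype ι] [DecidableEq ι] in
theorem wt_diff (A A' : Finset V) (n ε : ℝ) (hn : 0 < n) (hA : n / 4 ≤ (A.card : ℝ))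
    (hA' : n / 4 ≤ (A'.card : ℝ))
    (hd : ((A \ A').card : ℝ) + ((A' \ A).card : ℝ) ≤ 3 * ε * n) :
    ∑ v, |wt A v - wt A' v| ≤ 24 * ε := by
  have ha : (0 : ℝ) < A.card := by linarith
  have ha' : (0 : ℝ) < A'.card := by linarith
  have h1 : ∀ v, |wt A v - wt A' v| ≤ (if v ∈ A \ A' then 4 / n else 0) +
      (if v ∈ A' \ A then 4 / n else 0) +
      (if v ∈ A ∩ A' then |1 / (A.card : ℝ) - 1 / (A'.card : ℝ)| else 0) := by
    intro v
    have i1 : 1 / (A.card : ℝ) ≤ 4 / n := by
      rw [div_le_div_iff₀ ha hn]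
      linarith
    have i2 : 1 / (A'.card : ℝ) ≤ 4 / n := by
      rw [div_le_div_iff₀ ha' hn]
      linarith
    unfold wt
    by_cases hv : v ∈ A <;> by_cases hv' : v ∈ A'
    · simp [hv, hv']
    · simp only [hv, hv', if_true, if_false, Finset.mem_sdiff, Finset.mem_inter, not_true, not_false_iff,
        and_true, and_false, sub_zero, add_zero]
      rw [abs_of_nonneg (by positivity)]
      exact i1
    · simp only [hv, hv', if_true, if_false, Finset.mem_sdiff, Finset.mem_inter, not_true, not_false_iff,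
        and_true, and_false, zero_sub, add_zero, zero_add, abs_neg]
      rw [abs_of_nonneg (by positivity)]
      exact i2
    · simp [hv, hv']
  have h2 : ∑ v, |wt A v - wt A' v| ≤ ((A \ A').card : ℝ) * (4 / n) +
      ((A' \ A).card : ℝ) * (4 / n) +
      ((A ∩ A').card : ℝ) * |1 / (A.card : ℝ) - 1 / (A'.card : ℝ)| := by
    refine (Finset.sum_le_sum fun v _ => h1 v).trans ?_
    rw [Finset.sum_add_distrib, Finset.sum_add_distrib, Finset.sum_ite_mem, Finset.sum_ite_mem,
      Finset.sum_ite_mem, Finset.univ_inter, Finset.univ_inter, Finset.univ_inter,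
      Finset.sum_const, Finset.sum_const, Finset.sum_const, nsmul_eq_mul, nsmul_eq_mul,
      nsmul_eq_mul]
  have h3 : ((A ∩ A').card : ℝ) * |1 / (A.card : ℝ) - 1 / (A'.card : ℝ)| ≤
      (((A \ A').card : ℝ) + ((A' \ A).card : ℝ)) * (4 / n) := by
    have e1 : (A.card : ℝ) = ((A ∩ A').card : ℝ) + ((A \ A').card : ℝ) := by
      exact_mod_cast (Finset.card_inter_add_card_sdiff A A').symm
    have e2 : (A'.card : ℝ) = ((A ∩ A').card : ℝ) + ((A' \ A).card : ℝ) := by
      rw [Finset.inter_comm]
      exact_mod_cast (Finset.card_inter_add_card_sdiff A' A).symm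
    have e3 : 1 / (A.card : ℝ) - 1 / (A'.card : ℝ) =
        (((A' \ A).card : ℝ) - ((A \ A').card : ℝ)) / ((A.card : ℝ) * (A'.card : ℝ)) := by
      rw [div_sub_div _ _ ha.ne' ha'.ne']
      congr 1
      linarith
    have e4 : |((A' \ A).card : ℝ) - ((A \ A').card : ℝ)| ≤
        ((A \ A').card : ℝ) + ((A' \ A).card : ℝ) := by
      rw [abs_le]
      constructor
      · have := (Nat.cast_nonneg (A' \ A).card : (0 : ℝ) ≤ _)
        linarith
      · have := (Nat.cast_nonneg (A \ A').card : (0 : ℝ) ≤ _)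
        linarith
    rw [e3, abs_div, abs_of_pos (mul_pos ha ha')]
    calc ((A ∩ A').card : ℝ) * (|((A' \ A).card : ℝ) - ((A \ A').card : ℝ)| /
          ((A.card : ℝ) * (A'.card : ℝ)))
        ≤ (A.card : ℝ) * ((((A \ A').card : ℝ) + ((A' \ A).card : ℝ)) /
          ((A.card : ℝ) * (A'.card : ℝ))) := by
          gcongr
          exact Finset.inter_subset_left
      _ = (((A \ A').card : ℝ) + ((A' \ A).card : ℝ)) * (1 / (A'.card : ℝ)) := by
          field_simp
      _ ≤ _ := by
          gcongr ?_ * ?_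
          rw [div_le_div_iff₀ ha' hn]
          linarith
  have h4 : ∑ v, |wt A v - wt A' v| ≤
      (((A \ A').card : ℝ) + ((A' \ A).card : ℝ)) * (8 / n) := by
    refine h2.trans ?_
    have : (8 : ℝ) / n = 4 / n + 4 / n := by ring
    rw [this]
    nlinarith [h3]
  refine h4.trans ?_
  calc (((A \ A').card : ℝ) + ((A' \ A).card : ℝ)) * (8 / n) ≤ (3 * ε * n) * (8 / n) := by
        gcongr
    _ = 24 * ε := by
        field_simp
        ring

end Weights

section Averages

variable {V : Type} [Fintype V] [DecidableEq V]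

theorem D_nonneg (H : Finset (Finset V)) (X M : Finset V) (a b : ℕ) : 0 ≤ D H X M a b := by
  unfold D dens
  positivity

omit [Fintype V] [DecidableEq V] in
theorem avg_unit (X : Finset V) (F : (Unit → V) → ℝ) :
    avg (fun _ : Unit => X) F = (∑ v ∈ X, F fun _ => v) / (X.card : ℝ) := by
  unfold avg
  have h1 : ∏ _i : Unit, (X.card : ℝ) = X.card := by simp
  have h2 : ∑ f ∈ Fintype.piFinset (fun _ : Unit => X), F f = ∑ v ∈ X, F fun _ => v := by
    refine Finset.sum_bij' (fun f _ => f ()) (fun v _ => fun _ => v) ?_ ?_ ?_ ?_ ?_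
    · intro f hf
      rw [Fintype.mem_piFinset] at hf
      exact hf ()
    · intro v hv
      rw [Fintype.mem_piFinset]
      exact fun _ => hv
    · intro f _
      rfl
    · intro v _
      rfl
    · intro f _
      rfl
  rw [h1, h2]

theorem avg1 (h02 : StmtE02) (h03 : StmtE03) (H : Finset (Finset V)) (X : Finset V) (p q : ℕ)
    (hX : X.Nonempty) (hXc : (Xᶜ).Nonempty) :
    D H X ∅ (p + 1) (q + 1) = (∑ v ∈ X, D H X {v} p (q + 1)) / (X.card : ℝ) := by
  classical
  let φ : Unit ⊕ (Fin p ⊕ Fin (q + 1)) → Fin (p + 1) ⊕ Fin (q + 1) :=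
    Sum.elim (fun _ => Sum.inl 0) (Sum.elim (fun i => Sum.inl i.succ) Sum.inr)
  have hφ : Function.Injective φ := by
    rintro (⟨⟩ | i | i) (⟨⟩ | j | j) h <;> simp [φ, Fin.succ_ne_zero, (Fin.succ_ne_zero _).symm] at h ⊢
    · exact h
    · exact h
  have hs : Function.Surjective φ := by
    rintro (i | i)
    · induction i using Fin.cases with
      | zero => exact ⟨Sum.inl (), rfl⟩
      | succ i => exact ⟨Sum.inr (Sum.inl i), rfl⟩
    · exact ⟨Sum.inr (Sum.inr i), rfl⟩
  have hl : lets X (p + 1) (q + 1) ∘ φ = Sum.elim (fun _ : Unit => X) (lets X p (q + 1)) := by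
    funext i
    rcases i with i | i | i <;> rfl
  have hne : ∀ i, (lets X (p + 1) (q + 1) i).Nonempty := by
    rintro (i | i)
    · exact hX
    · exact hXc
  have hne' : ∀ i, (lets X p (q + 1) i).Nonempty := by
    rintro (i | i)
    · exact hX
    · exact hXc
  unfold D
  have e1 : (fun f : Fin (p + 1) ⊕ Fin (q + 1) → V => ∅ ∪ univ.image f ∈ H) =
      fun f => (fun g : Unit ⊕ (Fin p ⊕ Fin (q + 1)) → V => univ.image g ∈ H) (f ∘ φ) := by
    funext f
    have : univ.image (f ∘ φ) = univ.image f := by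
      rw [← Finset.image_image, Finset.image_univ_of_surjective hs]
    simp only [Finset.empty_union, this]
  rw [e1, h02 V _ _ (lets X (p + 1) (q + 1)) φ hne hφ
    (fun g : Unit ⊕ (Fin p ⊕ Fin (q + 1)) → V => univ.image g ∈ H), hl,
    (h03 V Unit _ (fun _ : Unit => X) (lets X p (q + 1)) (fun _ => hX) hne').1, avg_unit]
  congr 1
  apply Finset.sum_congr rfl
  intro v _
  congr 1
  funext g
  have : univ.image (Sum.elim (fun _ : Unit => v) g) = {v} ∪ univ.image g := by
    ext x
    simp only [Finset.mem_image, Finset.mem_univ, true_and, Finset.mem_union,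
      Finset.mem_singleton]
    constructor
    · rintro ⟨i | i, rfl⟩
      · exact Or.inl rfl
      · exact Or.inr ⟨i, rfl⟩
    · rintro (rfl | ⟨i, rfl⟩)
      · exact ⟨Sum.inl (), rfl⟩
      · exact ⟨Sum.inr i, rfl⟩
  rw [this]

theorem avg2 (h02 : StmtE02) (h03 : StmtE03) (H : Finset (Finset V)) (X : Finset V) (p q : ℕ)
    (hX : X.Nonempty) (hXc : (Xᶜ).Nonempty) :
    D H X ∅ (p + 1) (q + 1) = (∑ v ∈ Xᶜ, D H X {v} (p + 1) q) / ((Xᶜ).card : ℝ) := by
  classical
  let φ : Unit ⊕ (Fin (p + 1) ⊕ Fin q) → Fin (p + 1) ⊕ Fin (q + 1) :=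
    Sum.elim (fun _ => Sum.inr 0) (Sum.elim Sum.inl (fun i => Sum.inr i.succ))
  have hφ : Function.Injective φ := by
    rintro (⟨⟩ | i | i) (⟨⟩ | j | j) h <;> simp [φ, Fin.succ_ne_zero, (Fin.succ_ne_zero _).symm] at h ⊢
    · exact h
    · exact h
  have hs : Function.Surjective φ := by
    rintro (i | i)
    · exact ⟨Sum.inr (Sum.inl i), rfl⟩
    · induction i using Fin.cases with
      | zero => exact ⟨Sum.inl (), rfl⟩
      | succ i => exact ⟨Sum.inr (Sum.inr i), rfl⟩
  have hl : lets X (p + 1) (q + 1) ∘ φ = Sum.elim (fun _ : Unit => Xᶜ) (lets X (p + 1) q) := by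
    funext i
    rcases i with i | i | i <;> rfl
  have hne : ∀ i, (lets X (p + 1) (q + 1) i).Nonempty := by
    rintro (i | i)
    · exact hX
    · exact hXc
  have hne' : ∀ i, (lets X (p + 1) q i).Nonempty := by
    rintro (i | i)
    · exact hX
    · exact hXc
  unfold D
  have e1 : (fun f : Fin (p + 1) ⊕ Fin (q + 1) → V => ∅ ∪ univ.image f ∈ H) =
      fun f => (fun g : Unit ⊕ (Fin (p + 1) ⊕ Fin q) → V => univ.image g ∈ H) (f ∘ φ) := by
    funext f
    have : univ.image (f ∘ φ) = univ.image f := by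
      rw [← Finset.image_image, Finset.image_univ_of_surjective hs]
    simp only [Finset.empty_union, this]
  rw [e1, h02 V _ _ (lets X (p + 1) (q + 1)) φ hne hφ
    (fun g : Unit ⊕ (Fin (p + 1) ⊕ Fin q) → V => univ.image g ∈ H), hl,
    (h03 V Unit _ (fun _ : Unit => Xᶜ) (lets X (p + 1) q) (fun _ => hXc) hne').1, avg_unit]
  congr 1
  apply Finset.sum_congr rfl
  intro v _
  congr 1
  funext g
  have : univ.image (Sum.elim (fun _ : Unit => v) g) = {v} ∪ univ.image g := by
    ext x
    simp only [Finset.mem_image, Finset.mem_univ, true_and, Finset.mem_union,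
      Finset.mem_singleton]
    constructor
    · rintro ⟨i | i, rfl⟩
      · exact Or.inl rfl
      · exact Or.inr ⟨i, rfl⟩
    · rintro (rfl | ⟨i, rfl⟩)
      · exact ⟨Sum.inl (), rfl⟩
      · exact ⟨Sum.inr i, rfl⟩
  rw [this]

end Averages

theorem e_par (h02 : StmtE02) (h03 : StmtE03) (h06 : StmtE06) : StmtE24 := by
  classical
  intro V _ _ H X p q B δ ε hA hε hεδ hδ hD0
  set n : ℝ := (Fintype.card V : ℝ) with hn
  have hδ0 := hA.pos
  have hk2 : (2 : ℝ) ≤ ((p + q + 2 : ℕ) : ℝ) := by
    have : 2 ≤ p + q + 2 := by omega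
    exact_mod_cast this
  set k : ℝ := ((p + q + 2 : ℕ) : ℝ) with hk
  have hkε : k * ε ≤ δ / 100 := by linarith
  have hε2 : 2 * ε ≤ k * ε := mul_le_mul_of_nonneg_right hk2 hε
  have hn0 : 0 < n := by
    have h1 := hA.big
    have h2 : (0 : ℝ) < ((B + p + q + 2 : ℕ) : ℝ) := by
      have : 0 < B + p + q + 2 := by omega
      exact_mod_cast this
    have h3 : 0 < 100 * k ^ 2 * ((B + p + q + 2 : ℕ) : ℝ) := by positivity
    have h4 : 0 < δ * n := lt_of_lt_of_le h3 h1
    exact (mul_pos_iff_of_pos_left hδ0).1 h4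
  have lo := hA.lo
  have hi := hA.hi
  have lo' := hA.lo'
  have hi' := hA.hi'
  rw [← hn] at lo hi lo' hi'
  have hδn : δ * n ≤ n / 40 := by nlinarith
  have hδn0 : 0 < δ * n := mul_pos hδ0 hn0
  have hεn : ε * n ≤ δ * n / 200 := by nlinarith
  have hεn0 : 0 ≤ ε * n := mul_nonneg hε hn0.le
  have hX0 : (0 : ℝ) < X.card := by nlinarith
  have hXc0 : (0 : ℝ) < (Xᶜ).card := by nlinarith
  have hXne : X.Nonempty := Finset.card_pos.1 (by exact_mod_cast hX0)
  have hXcne : (Xᶜ).Nonempty := Finset.card_pos.1 (by exact_mod_cast hXc0)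
  have hsum : (X.card : ℝ) + ((Xᶜ).card : ℝ) = n := by
    rw [hn]
    exact_mod_cast Finset.card_add_card_compl X
  set X' : Finset V := univ.filter fun v => D H X {v} p (q + 1) ≤ D H X {v} (p + 1) q with hX'
  have h6 : ∀ v : V, 1 - 3 * δ ≤ D H X {v} (p + 1) q + D H X {v} p (q + 1) := fun v =>
    h06 V H X {v} p q B p q δ hA (by rw [Finset.card_singleton]; ring)
  have inX : ∀ v ∈ X', 9 / 20 ≤ D H X {v} (p + 1) q := by
    intro v hv
    rw [hX', Finset.mem_filter] at hv
    have := h6 v
    linarith [hv.2]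
  have outX : ∀ v, v ∉ X' → 9 / 20 ≤ D H X {v} p (q + 1) := by
    intro v hv
    rw [hX', Finset.mem_filter] at hv
    push Not at hv
    have := h6 v
    linarith [hv (Finset.mem_univ v)]
  have s1 : ((X \ X').card : ℝ) ≤ 3 * (ε * X.card) := by
    have a1 := avg1 h02 h03 H X p q hXne hXcne
    have a2 : ∑ v ∈ X, D H X {v} p (q + 1) ≤ ε * X.card := by
      rw [a1, div_le_iff₀ hX0] at hD0
      exact hD0
    have a3 : ((X \ X').card : ℝ) * (9 / 20) ≤ ∑ v ∈ X, D H X {v} p (q + 1) := by
      calc ((X \ X').card : ℝ) * (9 / 20) = ∑ v ∈ X \ X', (9 / 20 : ℝ) := by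
            rw [Finset.sum_const, nsmul_eq_mul]
        _ ≤ ∑ v ∈ X \ X', D H X {v} p (q + 1) :=
            Finset.sum_le_sum fun v hv => outX v (Finset.mem_sdiff.1 hv).2
        _ ≤ _ := Finset.sum_le_sum_of_subset_of_nonneg Finset.sdiff_subset
            fun v _ _ => D_nonneg _ _ _ _ _
    have a4 : 0 ≤ ε * (X.card : ℝ) := by positivity
    linarith
  have s2 : ((X' \ X).card : ℝ) ≤ 3 * (ε * (Xᶜ).card) := by
    have a1 := avg2 h02 h03 H X p q hXne hXcne
    have a2 : ∑ v ∈ Xᶜ, D H X {v} (p + 1) q ≤ ε * (Xᶜ).card := by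
      rw [a1, div_le_iff₀ hXc0] at hD0
      exact hD0
    have a3 : ((X' \ X).card : ℝ) * (9 / 20) ≤ ∑ v ∈ Xᶜ, D H X {v} (p + 1) q := by
      calc ((X' \ X).card : ℝ) * (9 / 20) = ∑ v ∈ X' \ X, (9 / 20 : ℝ) := by
            rw [Finset.sum_const, nsmul_eq_mul]
        _ ≤ ∑ v ∈ X' \ X, D H X {v} (p + 1) q :=
            Finset.sum_le_sum fun v hv => inX v (Finset.mem_sdiff.1 hv).1
        _ ≤ _ := by
            apply Finset.sum_le_sum_of_subset_of_nonneg _ fun v _ _ => D_nonneg _ _ _ _ _
            intro v hv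
            rw [Finset.mem_compl]
            exact (Finset.mem_sdiff.1 hv).2
    have a4 : 0 ≤ ε * ((Xᶜ).card : ℝ) := by positivity
    linarith
  have s3 : ((X \ X').card : ℝ) + ((X' \ X).card : ℝ) ≤ 3 * ε * n := by
    rw [← hsum]
    linarith
  have p1 : (0 : ℝ) ≤ ((X \ X').card : ℝ) := Nat.cast_nonneg _
  have p2 : (0 : ℝ) ≤ ((X' \ X).card : ℝ) := Nat.cast_nonneg _
  have e1 : (X.card : ℝ) = ((X ∩ X').card : ℝ) + ((X \ X').card : ℝ) := by
    exact_mod_cast (Finset.card_inter_add_card_sdiff X X').symm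
  have e2 : (X'.card : ℝ) = ((X ∩ X').card : ℝ) + ((X' \ X).card : ℝ) := by
    rw [Finset.inter_comm]
    exact_mod_cast (Finset.card_inter_add_card_sdiff X' X).symm
  have hsum' : (X'.card : ℝ) + ((X'ᶜ).card : ℝ) = n := by
    rw [hn]
    exact_mod_cast Finset.card_add_card_compl X'
  have c1 : Xᶜ \ X'ᶜ = X' \ X := by
    ext v
    simp only [Finset.mem_sdiff, Finset.mem_compl, not_not]
    exact and_comm
  have c2 : X'ᶜ \ Xᶜ = X \ X' := by
    ext v
    simp only [Finset.mem_sdiff, Finset.mem_compl, not_not]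
    exact and_comm
  have hτ : ∀ b : Bool, ∑ v, |wt (sd X b) v - wt (sd X' b) v| ≤ 24 * ε := by
    intro b
    cases b
    · simp only [sd, Bool.false_eq_true, if_false]
      apply wt_diff Xᶜ X'ᶜ n ε hn0
      · linarith
      · linarith
      · rw [c1, c2]
        linarith
    · simp only [sd, if_true]
      apply wt_diff X X' n ε hn0
      · linarith
      · linarith
      · exact s3
  have hne : ∀ b : Bool, (sd X b).Nonempty := by
    intro b
    cases b
    · exact hXcne
    · exact hXne
  have hne' : ∀ b : Bool, (sd X' b).Nonempty := by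
    intro b
    cases b
    · apply Finset.card_pos.1
      have : (0 : ℝ) < (X'ᶜ).card := by linarith
      exact_mod_cast this
    · apply Finset.card_pos.1
      have : (0 : ℝ) < X'.card := by linarith
      exact_mod_cast this
  have hl : ∀ (Z : Finset V) (a b : ℕ) (i : Fin a ⊕ Fin b), lets Z a b i =
      sd Z (Sum.elim (fun _ => true) (fun _ => false) i) := by
    intro Z a b i
    rcases i with i | i <;> rfl
  have hch : ∀ (M : Finset V) (a b : ℕ), a + b ≤ p + q + 2 →
      |D H X M a b - D H X' M a b| ≤ δ := by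
    intro M a b hab
    have h1 := change (lets X a b) (lets X' a b) (24 * ε)
      (fun i => by rw [hl]; exact hne _) (fun i => by rw [hl]; exact hne' _)
      (fun i => by rw [hl, hl]; exact hτ _) (fun f => M ∪ Finset.univ.image f ∈ H)
    rw [Fintype.card_sum, Fintype.card_fin, Fintype.card_fin] at h1
    refine h1.trans ?_
    have h2 : ((a + b : ℕ) : ℝ) ≤ k := by
      rw [hk]
      exact_mod_cast hab
    have h3 : ((a + b : ℕ) : ℝ) * (24 * ε) ≤ k * (24 * ε) :=
      mul_le_mul_of_nonneg_right h2 (by positivity)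
    linarith
  refine ⟨X', ⟨?_, ?_⟩, ?_, ?_, ?_⟩
  · intro v hv
    have h1 := inX v hv
    have h2 := abs_le.1 (hch {v} (p + 1) q (by omega))
    linarith [h2.2]
  · intro v hv
    have h1 := outX v hv
    have h2 := abs_le.1 (hch {v} p (q + 1) (by omega))
    linarith [h2.2]
  · refine ⟨hA.uni, hA.dirac, by linarith, by linarith, ?_, ?_, ?_, ?_, ?_⟩
    · rw [← hn]
      linarith
    · rw [← hn]
      linarith
    · rw [← hn]
      linarith
    · rw [← hn]
      linarith
    · have := hA.big
      rw [← hn] at this ⊢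
      linarith
  · have h2 := abs_le.1 (hch ∅ (p + 1) (q + 1) (by omega))
    linarith [h2.1]
  · intro w S β hw hS
    unfold Alm at hS ⊢
    have h1 := change (fun i : Fin w.length => sd X (w.get i)) (fun i => sd X' (w.get i)) (24 * ε)
      (fun i => hne _) (fun i => hne' _) (fun i => hτ _) (fun a => List.ofFn a ∉ S)
    rw [Fintype.card_fin] at h1
    have h2 : (w.length : ℝ) ≤ k := by
      rw [hk]
      exact_mod_cast hw
    have h3 : (w.length : ℝ) * (24 * ε) ≤ k * (24 * ε) :=
      mul_le_mul_of_nonneg_right h2 (by positivity)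
    have h4 := abs_le.1 (h1.trans h3)
    linarith [h4.1]

end Pool.Agent.KK.E.H77
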